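import Pool.Agent.Lib.MP_90534d_pr.Final

/-! The tail functions of tropicalized Gaussians in `K^d` are exactly the tropical polynomials on
the cube with integer supermodular coefficients satisfying the three term condition if and only if
`d ≤ 5` and `d ≤ q`. -/

namespace Pool.Agent.Results.MP_90534d_pr.ConvexRange

open MeasureTheory Pool.Agent.Lib.MP_90534d_pr

theorem result (K : Type) [Field K] [ValuativeRel K] [TopologicalSpace K]
    [IsNonarchimedeanLocalField K] (d : ℕ) [MeasurableSpace (Fin d → K)] [BorelSpace (Fin d → K)]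
    (μ : Measure (Fin d → K)) [μ.IsAddHaarMeasure] :
    (∀ φ : (Fin d → ℤ) → ℝ, (∃ A : Matrix (Fin d) (Fin d) K, A.det ≠ 0 ∧ φ = tail μ A) ↔
      ∃ c : Finset (Fin d) → ℤ, MConvex c ∧ φ = fun v => (trop c v : ℝ)) ↔
    d ≤ 5 ∧ d ≤ resCard K :=
  final μ

end Pool.Agent.Results.MP_90534d_pr.ConvexRange
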